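import Pool.Agent.Q260.MZ.Grid

set_option autoImplicit false

/-!
# Monotone counting functions in windows
-/

namespace Pool.Agent.Q260.MZ

open Filter Topology MeasureTheory Set
open scoped ENNReal NNReal

/-- if `Cnt t H ≥ c H log T` for almost all `t`, for each `H`, and `Cnt` is monotone in the window,
then the points `y` with `Cnt y H < (c / 6) H log y` for some `H` are few -/
theorem few_count {Cnt : ℝ → ℝ → ℝ} {c η η' δ T0 : ℝ} (hc : 0 < c)
    (hmono : ∀ y t H H' : ℝ, 1 ≤ y → y ≤ t → t + H' ≤ y + H → Cnt t H' ≤ Cnt y H)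
    (hη' : η / 2 ≤ η') (hη'η : η' < η) (hη0 : 0 < η) (hη1 : η < 1) (hδ : 0 < δ)
    (hm : ∀ T : ℝ, T0 ≤ T → ∀ H : ℝ, T ^ η' ≤ H → H ≤ T / 8 →
      volume {t : ℝ | T ≤ t ∧ t ≤ 2 * T ∧ Cnt t H < c * (H * Real.log T)} ≤
        ENNReal.ofReal (T ^ (1 - δ))) :
    ∃ δ' : ℝ, 0 < δ' ∧ δ' < 1 ∧ Few (fun y => ∃ H : ℝ, y ^ η ≤ H ∧ H ≤ y / 16 ∧
      Cnt y H < c / 6 * (H * Real.log y)) δ' := by
  set δ0 : ℝ := min δ (1 / 2) with hδ0
  have hδ00 : 0 < δ0 := lt_min hδ (by norm_num)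
  have hδ01 : δ0 < 1 := (min_le_right _ _).trans_lt (by norm_num)
  set G : ℝ → ℝ → ℝ → Prop := fun T t H => c * (H * Real.log T) ≤ Cnt t H with hG
  have hst : Few (StrongBad G η 1) (δ0 / 2) := by
    refine few_strong (η' := η') (T0 := max T0 1) hη' hη'η hη1 hη0 one_pos hδ00 hδ01 ?_
    intro T hT H hH1 hH2
    refine (measure_mono ?_).trans ((hm T ((le_max_left _ _).trans hT) H hH1 hH2).trans ?_)
    · rintro t ⟨⟨ht1, ht2⟩, ht3⟩
      exact ⟨ht1, ht2, not_le.1 ht3⟩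
    · apply ENNReal.ofReal_le_ofReal
      apply Real.rpow_le_rpow_of_exponent_le ((le_max_right _ _).trans hT)
      linarith [min_le_left δ (1 / 2)]
  have h3 : ∀ᶠ T : ℝ in atTop, 3 ≤ T ^ (η / 2) :=
    (tendsto_rpow_atTop (by linarith)).eventually_ge_atTop _
  obtain ⟨T1, hT1⟩ := eventually_atTop.1 h3
  refine ⟨δ0 / 2, by linarith, by linarith,
    few_of_large (Y0 := max (2 * T1) 16) (by linarith) hst ?_⟩
  rintro y hy ⟨H, hH1, hH2, hH3⟩
  have hy1 : 2 * T1 ≤ y := (le_max_left _ _).trans hy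
  have hy16 : 16 ≤ y := (le_max_right _ _).trans hy
  refine ⟨H, hH1, hH2, fun T t H' h1 h2 h4 h5 h6 h7 h8 h9 h10 hgood => ?_⟩
  have hT8 : 8 ≤ T := by linarith
  have hH'3 : 3 ≤ H' := (hT1 T (by linarith)).trans h8
  have hHH' : H ≤ 3 * H' := by linarith
  have hlogT : Real.log y / 2 ≤ Real.log T := by
    have h11 : Real.log y ≤ Real.log (T ^ 2) := by
      apply Real.log_le_log (by linarith)
      nlinarith
    rw [Real.log_pow] at h11
    push_cast at h11
    linarith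
  have hly : 0 ≤ Real.log y := Real.log_nonneg (by linarith)
  have h12 : c / 6 * (H * Real.log y) ≤ c * (H' * Real.log T) := by
    have h13 : H * Real.log y ≤ (3 * H') * (2 * Real.log T) := by
      apply mul_le_mul hHH' (by linarith) hly (by linarith)
    have h14 := mul_le_mul_of_nonneg_left h13 (by positivity : (0:ℝ) ≤ c / 6)
    calc c / 6 * (H * Real.log y) ≤ c / 6 * ((3 * H') * (2 * Real.log T)) := h14
      _ = c * (H' * Real.log T) := by ring
  have h15 := hmono y t H H' (by linarith) h6 h9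
  exact absurd (h12.trans (le_trans hgood h15)) (not_le.2 hH3)

end Pool.Agent.Q260.MZ
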