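import Pool.Agent.Q260.MZ.Met

set_option autoImplicit false

/-!
# Dilations `α u_k` and powers `α ^ v_k`
-/

namespace Pool.Agent.Q260.MZ

open Filter Topology MeasureTheory Set
open scoped ENNReal NNReal
open Pool.Agent.Q138.Met

theorem dil_null {B : ℝ → Prop} {κ s : ℝ} (hB : Few B κ) (hκ1 : κ < 1) (hs : 1 - κ < s)
    (u : ℕ → ℝ) (hu : ∀ k, 0 < u k) (hsup : ∀ A : ℝ, ∀ᶠ k : ℕ in atTop, (k : ℝ) ^ A ≤ u k) :
    μH[s] {x : ℝ | 0 < x ∧ ∃ᶠ k in atTop, B (x * u k)} = 0 := by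
  obtain ⟨C, hC, hp⟩ := hB
  have hs0 : 0 < s := by linarith
  have hut : Tendsto u atTop atTop := by
    refine tendsto_atTop_mono' _ (hsup 1) ?_
    simpa using tendsto_natCast_atTop_atTop (R := ℝ)
  have hcov : {x : ℝ | 0 < x ∧ ∃ᶠ k in atTop, B (x * u k)} ⊆
      ⋃ m : ℕ, {x : ℝ | x ∈ Icc (1 / ((m : ℝ) + 1)) ((m : ℝ) + 1) ∧
        ∃ᶠ k in atTop, B (x * u k)} := by
    rintro x ⟨hx, hfr⟩
    obtain ⟨m, hm⟩ := exists_nat_ge (max x (1 / x))
    refine mem_iUnion.2 ⟨m, ⟨?_, ?_⟩, hfr⟩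
    · have h1 : 1 / x ≤ m := (le_max_right _ _).trans hm
      rw [div_le_iff₀ (by positivity)]
      rw [div_le_iff₀ hx] at h1
      nlinarith
    · have h1 : x ≤ m := (le_max_left _ _).trans hm
      linarith
  refine measure_mono_null hcov (measure_iUnion_null fun m => ?_)
  have hm0 : (0 : ℝ) < (m : ℝ) + 1 := by positivity
  refine fam_null (C := C) hC hκ1.le hp hs0 (fun k x => x * u k) u
    (fun k => ((m : ℝ) + 1) * u k) (Eventually.of_forall hu) ?_ ?_ ?_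
  · filter_upwards [hut.eventually_ge_atTop ((m : ℝ) + 1)] with k hk
    rintro x ⟨h1, h2⟩
    have huk := hu k
    refine ⟨?_, mul_le_mul_of_nonneg_right h2 huk.le⟩
    calc (1 : ℝ) = 1 / ((m : ℝ) + 1) * ((m : ℝ) + 1) := by field_simp
      _ ≤ x * u k := mul_le_mul h1 hk hm0.le ((by positivity : (0:ℝ) ≤ 1 / ((m : ℝ) + 1)).trans h1)
  · refine Eventually.of_forall fun k x _ y _ _ => ?_
    exact le_of_eq (by ring)
  · have h1 := (summable_of_superpoly hsup (a := s - (1 - κ)) (by linarith) hu).mul_left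
      (((m : ℝ) + 1) ^ (1 - κ))
    refine h1.congr fun k => ?_
    rw [Real.mul_rpow hm0.le (hu k).le, mul_assoc, ← Real.rpow_add (hu k)]
    congr 2
    ring

/-- **Dilations**: the exceptional set has dimension at most `1 - κ` -/
theorem dil_dim {B : ℝ → Prop} {κ : ℝ} (hB : Few B κ) (hκ1 : κ < 1)
    (u : ℕ → ℝ) (hu : ∀ k, 0 < u k) (hsup : ∀ A : ℝ, ∀ᶠ k : ℕ in atTop, (k : ℝ) ^ A ≤ u k) :
    dimH {x : ℝ | 0 < x ∧ ∃ᶠ k in atTop, B (x * u k)} ≤ ENNReal.ofReal (1 - κ) :=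
  dimH_le_of_null (by linarith) fun _ hs => dil_null hB hκ1 hs u hu hsup

lemma rpow_expand {a b v x y : ℝ} (ha : 0 < a) (hv : 1 ≤ v) (hx : x ∈ Icc a b)
    (_hy : y ∈ Icc a b) (hxy : x ≤ y) : a ^ v / b * (y - x) ≤ y ^ v - x ^ v := by
  have hx0 : 0 < x := ha.trans_le hx.1
  have hb0 : 0 < b := hx0.trans_le hx.2
  have h1 := one_add_mul_self_le_rpow_one_add (s := (y - x) / x) (p := v)
    (by have : 0 ≤ (y - x) / x := div_nonneg (by linarith) hx0.le
        linarith) hv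
  have h2 : 1 + (y - x) / x = y / x := by field_simp; ring
  rw [h2, Real.div_rpow (hx0.le.trans hxy) hx0.le, le_div_iff₀ (Real.rpow_pos_of_pos hx0 _)] at h1
  have h3 : a ^ v ≤ x ^ v := Real.rpow_le_rpow ha.le hx.1 (by linarith)
  have hxv : 0 < x ^ v := Real.rpow_pos_of_pos hx0 _
  have h4 : a ^ v / b * (y - x) ≤ x ^ v / x * (y - x) := by
    apply mul_le_mul_of_nonneg_right _ (by linarith)
    exact div_le_div₀ hxv.le h3 hx0 hx.2
  have h5 : x ^ v / x * (y - x) ≤ v * ((y - x) / x) * x ^ v := by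
    have e : x ^ v / x * (y - x) = 1 * ((y - x) / x) * x ^ v := by ring
    rw [e]
    apply mul_le_mul_of_nonneg_right _ hxv.le
    exact mul_le_mul_of_nonneg_right hv (div_nonneg (by linarith) hx0.le)
  linarith

theorem pow_null {B : ℝ → Prop} {κ s : ℝ} (hB : Few B κ) (hκ1 : κ < 1) (hs : 1 - κ < s)
    (v : ℕ → ℝ) (hsup : ∀ A : ℝ, ∀ᶠ k : ℕ in atTop, A * Real.log k ≤ v k) :
    μH[s] {x : ℝ | 1 < x ∧ ∃ᶠ k in atTop, B (x ^ v k)} = 0 := by
  obtain ⟨C, hC, hp⟩ := hB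
  have hs0 : 0 < s := by linarith
  have hvt : Tendsto v atTop atTop := by
    refine tendsto_atTop_mono' _ (hsup 1) ?_
    have h := Real.tendsto_log_atTop.comp (tendsto_natCast_atTop_atTop (R := ℝ))
    refine h.congr fun k => ?_
    rw [one_mul]
    rfl
  have hcov : {x : ℝ | 1 < x ∧ ∃ᶠ k in atTop, B (x ^ v k)} ⊆
      ⋃ i : ℚ × ℚ, if 1 < (i.1 : ℝ) ∧ (i.2 : ℝ) ^ (1 - κ) < (i.1 : ℝ) ^ s then
        {x : ℝ | x ∈ Icc (i.1 : ℝ) (i.2 : ℝ) ∧ ∃ᶠ k in atTop, B (x ^ v k)} else ∅ := by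
    rintro x ⟨hx, hfr⟩
    have hx0 : 0 < x := by linarith
    have h1 : x ^ (1 - κ) < x ^ s := Real.rpow_lt_rpow_of_exponent_lt hx hs
    obtain ⟨c, hc1, hc2⟩ := exists_between h1
    -- a lower rational point
    have c1 : ContinuousAt (fun y : ℝ => y ^ s) x :=
      Real.continuousAt_rpow_const x s (Or.inl hx0.ne')
    have c2 : ContinuousAt (fun y : ℝ => y ^ (1 - κ)) x :=
      Real.continuousAt_rpow_const x (1 - κ) (Or.inl hx0.ne')
    have e1 : ∀ᶠ y : ℝ in 𝓝[<] x, c < y ^ s ∧ 1 < y ∧ y < x := by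
      have f1 : ∀ᶠ y : ℝ in 𝓝[<] x, c < y ^ s :=
        nhdsWithin_le_nhds (c1.eventually (lt_mem_nhds hc2))
      have f2 : ∀ᶠ y : ℝ in 𝓝[<] x, 1 < y := nhdsWithin_le_nhds (lt_mem_nhds hx)
      have f3 : ∀ᶠ y : ℝ in 𝓝[<] x, y < x := self_mem_nhdsWithin
      exact f1.and (f2.and f3)
    have e2 : ∀ᶠ y : ℝ in 𝓝[>] x, y ^ (1 - κ) < c ∧ x < y := by
      have f1 : ∀ᶠ y : ℝ in 𝓝[>] x, y ^ (1 - κ) < c :=
        nhdsWithin_le_nhds (c2.eventually (gt_mem_nhds hc1))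
      have f3 : ∀ᶠ y : ℝ in 𝓝[>] x, x < y := self_mem_nhdsWithin
      exact f1.and f3
    obtain ⟨y1, hy1, hy2, hy3⟩ := e1.exists
    obtain ⟨y2, hy4, hy5⟩ := e2.exists
    obtain ⟨p, hp1, hp2⟩ := exists_rat_btwn hy3
    obtain ⟨q, hq1, hq2⟩ := exists_rat_btwn hy5
    have hcond : 1 < (p : ℝ) ∧ (q : ℝ) ^ (1 - κ) < (p : ℝ) ^ s := by
      refine ⟨hy2.trans hp1, ?_⟩
      calc (q : ℝ) ^ (1 - κ) ≤ y2 ^ (1 - κ) :=
            Real.rpow_le_rpow (by linarith) hq2.le (by linarith)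
        _ < c := hy4
        _ < y1 ^ s := hy1
        _ ≤ (p : ℝ) ^ s := Real.rpow_le_rpow (by linarith) hp1.le hs0.le
    refine mem_iUnion.2 ⟨(p, q), ?_⟩
    simp only [if_pos hcond]
    exact ⟨⟨hp2.le, hq1.le⟩, hfr⟩
  refine measure_mono_null hcov (measure_iUnion_null fun i => ?_)
  split_ifs with hi
  swap
  · simp
  obtain ⟨hi1, hi2⟩ := hi
  set a : ℝ := (i.1 : ℝ) with ha
  set b : ℝ := (i.2 : ℝ) with hb
  have ha0 : 0 < a := by linarith
  by_cases hab : a ≤ b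
  swap
  · have : {x : ℝ | x ∈ Icc a b ∧ ∃ᶠ k in atTop, B (x ^ v k)} = ∅ := by
      ext x
      constructor
      · rintro ⟨⟨h1, h2⟩, -⟩
        exact absurd (h1.trans h2) hab
      · intro h; exact absurd h (notMem_empty _)
    rw [this]; simp
  have hb0 : 0 < b := ha0.trans_le hab
  refine fam_null (C := C) hC hκ1.le hp hs0 (fun k x => x ^ v k) (fun k => a ^ v k / b)
    (fun k => b ^ v k) (Eventually.of_forall fun k => by positivity) ?_ ?_ ?_
  · filter_upwards [hvt.eventually_ge_atTop 1] with k hk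
    rintro x ⟨h1, h2⟩
    exact ⟨Real.one_le_rpow (by linarith) (by linarith),
      Real.rpow_le_rpow (by linarith) h2 (by linarith)⟩
  · filter_upwards [hvt.eventually_ge_atTop 1] with k hk
    intro x hx y hy hxy
    exact rpow_expand ha0 hk hx hy hxy
  · -- summability
    set r : ℝ := b ^ (1 - κ) / a ^ s with hr
    have hr0 : 0 < r := by positivity
    have hr1 : r < 1 := by
      rw [hr, div_lt_one (Real.rpow_pos_of_pos ha0 _)]
      exact hi2
    have hlr : Real.log r < 0 := Real.log_neg hr0 hr1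
    have hval : ∀ k : ℕ, (b ^ v k) ^ (1 - κ) * (a ^ v k / b) ^ (-s) = b ^ s * r ^ v k := by
      intro k
      have e1 : (b ^ v k) ^ (1 - κ) = (b ^ (1 - κ)) ^ v k := by
        rw [← Real.rpow_mul hb0.le, ← Real.rpow_mul hb0.le, mul_comm]
      have e2 : (a ^ v k) ^ (-s) = ((a ^ s) ^ v k)⁻¹ := by
        rw [← Real.rpow_mul ha0.le, ← Real.rpow_mul ha0.le, mul_neg, Real.rpow_neg ha0.le, mul_comm]
      rw [hr, Real.div_rpow (Real.rpow_pos_of_pos ha0 _).le hb0.le (-s),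
        Real.div_rpow (Real.rpow_pos_of_pos hb0 _).le (Real.rpow_pos_of_pos ha0 _).le (v k), e1, e2,
        Real.rpow_neg hb0.le]
      have h3 : (0:ℝ) < (a ^ s) ^ v k := Real.rpow_pos_of_pos (Real.rpow_pos_of_pos ha0 _) _
      have h4 : (0:ℝ) < b ^ s := Real.rpow_pos_of_pos hb0 _
      field_simp
    have h1 : Summable fun k : ℕ => b ^ s * r ^ v k := by
      apply Summable.mul_left
      have h2 : Summable fun k : ℕ => (k : ℝ) ^ (-2 : ℝ) := by
        rw [Real.summable_nat_rpow]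
        norm_num
      refine Summable.of_norm_bounded_eventually_nat (g := fun k : ℕ => (k : ℝ) ^ (-2 : ℝ)) h2 ?_
      filter_upwards [hsup (2 / (-Real.log r)), eventually_ge_atTop 1] with k hk hk1
      have hk0 : (0 : ℝ) < k := by exact_mod_cast hk1
      rw [Real.norm_eq_abs, abs_of_pos (Real.rpow_pos_of_pos hr0 _),
        Real.rpow_def_of_pos hr0, Real.rpow_def_of_pos hk0]
      apply Real.exp_le_exp.2
      have h3 : 2 * Real.log k ≤ (-Real.log r) * v k := by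
        have h4 : (-Real.log r) * (2 / (-Real.log r) * Real.log k) ≤ (-Real.log r) * v k :=
          mul_le_mul_of_nonneg_left hk (by linarith)
        have h5 : (-Real.log r) * (2 / (-Real.log r) * Real.log k) = 2 * Real.log k := by
          have h6 : (-Real.log r) ≠ 0 := by linarith
          rw [← mul_assoc, mul_div_cancel₀ _ h6]
        linarith
      linarith
    exact h1.congr fun k => (hval k).symm

/-- **Powers**: the exceptional set has dimension at most `1 - κ` -/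
theorem pow_dim {B : ℝ → Prop} {κ : ℝ} (hB : Few B κ) (hκ1 : κ < 1)
    (v : ℕ → ℝ) (hsup : ∀ A : ℝ, ∀ᶠ k : ℕ in atTop, A * Real.log k ≤ v k) :
    dimH {x : ℝ | 1 < x ∧ ∃ᶠ k in atTop, B (x ^ v k)} ≤ ENNReal.ofReal (1 - κ) :=
  dimH_le_of_null (by linarith) fun _ hs => pow_null hB hκ1 hs v hsup

/-- almost every parameter -/
theorem dil_ae {B : ℝ → Prop} {κ : ℝ} (hB : Few B κ) (hκ0 : 0 < κ) (hκ1 : κ < 1)
    (u : ℕ → ℝ) (hu : ∀ k, 0 < u k) (hsup : ∀ A : ℝ, ∀ᶠ k : ℕ in atTop, (k : ℝ) ^ A ≤ u k) :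
    ∀ᵐ x : ℝ, 0 < x → ∀ᶠ k in atTop, ¬ B (x * u k) := by
  have h := dil_null hB hκ1 (s := 1) (by linarith) u hu hsup
  rw [hausdorffMeasure_real] at h
  rw [ae_iff]
  convert h using 2
  ext x
  simp only [Classical.not_imp, Filter.not_eventually, not_not, mem_ofPred_eq]

theorem pow_ae {B : ℝ → Prop} {κ : ℝ} (hB : Few B κ) (hκ0 : 0 < κ) (hκ1 : κ < 1)
    (v : ℕ → ℝ) (hsup : ∀ A : ℝ, ∀ᶠ k : ℕ in atTop, A * Real.log k ≤ v k) :
    ∀ᵐ x : ℝ, 1 < x → ∀ᶠ k in atTop, ¬ B (x ^ v k) := by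
  have h := pow_null hB hκ1 (s := 1) (by linarith) v hsup
  rw [hausdorffMeasure_real] at h
  rw [ae_iff]
  convert h using 2
  ext x
  simp only [Classical.not_imp, Filter.not_eventually, not_not, mem_ofPred_eq]

end Pool.Agent.Q260.MZ
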