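import Pool.Agent.Q260.MZ.Fam

set_option autoImplicit false

/-!
# All window lengths at once
-/

namespace Pool.Agent.Q260.MZ

open Filter Topology MeasureTheory Set
open scoped ENNReal NNReal
open Pool.Agent.Q138.Met

theorem few_of_large {B1 B2 : ℝ → Prop} {κ Y0 : ℝ} (hκ : κ ≤ 1) (h1 : Few B1 κ)
    (h : ∀ y : ℝ, Y0 ≤ y → B2 y → B1 y) : Few B2 κ := by
  classical
  obtain ⟨C, hC, hp⟩ := h1
  obtain ⟨m, hm⟩ := exists_nat_ge Y0
  refine ⟨C + m, by positivity, fun N hN => ?_⟩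
  have hsub : hits B2 N ⊆ hits B1 N ∪ Finset.range m := by
    intro n hn
    rw [mem_hits] at hn
    obtain ⟨h2, y, h3, h4, h5⟩ := hn
    rw [Finset.mem_union, mem_hits, Finset.mem_range]
    by_cases hnm : n < m
    · exact Or.inr hnm
    · have : (m : ℝ) ≤ n := by exact_mod_cast not_lt.1 hnm
      exact Or.inl ⟨h2, y, h3, h4, h y (by linarith) h5⟩
  have h2 := (Finset.card_le_card hsub).trans (Finset.card_union_le _ _)
  rw [Finset.card_range] at h2
  have h3 : ((hits B2 N).card : ℝ) ≤ (hits B1 N).card + m := by exact_mod_cast h2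
  have h4 : (1 : ℝ) ≤ (N : ℝ) ^ (1 - κ) :=
    Real.one_le_rpow (by exact_mod_cast hN) (by linarith)
  have h5 : (m : ℝ) ≤ m * (N : ℝ) ^ (1 - κ) := le_mul_of_one_le_right (Nat.cast_nonneg m) h4
  calc ((hits B2 N).card : ℝ) ≤ C * (N : ℝ) ^ (1 - κ) + m * (N : ℝ) ^ (1 - κ) :=
        h3.trans (add_le_add (hp N hN) h5)
    _ = _ := by ring

theorem few_mono {B : ℝ → Prop} {κ κ' : ℝ} (hκ : κ' ≤ κ) (h : Few B κ) : Few B κ' := by
  obtain ⟨C, hC, hp⟩ := h
  refine ⟨C, hC, fun N hN => (hp N hN).trans ?_⟩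
  apply mul_le_mul_of_nonneg_left _ hC
  exact Real.rpow_le_rpow_of_exponent_le (by exact_mod_cast hN) (by linarith)

/-- `y` is bad for some window length `H`, whatever slightly smaller window is taken -/
def StrongBad (G : ℝ → ℝ → ℝ → Prop) (η κ : ℝ) (y : ℝ) : Prop :=
  ∃ H : ℝ, y ^ η ≤ H ∧ H ≤ y / 16 ∧ ∀ T t H' : ℝ, T ≤ t → t ≤ 2 * T → T - 1 ≤ y → y ≤ 2 * T →
    y ≤ t → t ≤ y + 2 → T ^ (η / 2) ≤ H' → t + H' ≤ y + H → H ≤ (1 + κ) * H' + 3 → ¬ G T t H'

/-- **All lengths at once.** -/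
theorem few_strong {G : ℝ → ℝ → ℝ → Prop} {η η' κ δ0 T0 : ℝ} (hη' : η / 2 ≤ η') (hη : η' < η)
    (hη1 : η < 1) (hη0 : 0 < η) (hκ : 0 < κ) (hδ0 : 0 < δ0) (hδ1 : δ0 < 1)
    (hm : ∀ T : ℝ, T0 ≤ T → ∀ H : ℝ, T ^ η' ≤ H → H ≤ T / 8 →
      volume {t : ℝ | (T ≤ t ∧ t ≤ 2 * T) ∧ ¬ G T t H} ≤ ENNReal.ofReal (T ^ (1 - δ0))) :
    Few (StrongBad G η κ) (δ0 / 2) := by
  classical
  -- the grid
  set Hj : ℝ → ℕ → ℝ := fun T j => T ^ η' * (1 + κ) ^ j with hHj
  set J : ℝ → ℕ := fun T => ⌈Real.log T / Real.log (1 + κ)⌉₊ with hJ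
  have hlκ : 0 < Real.log (1 + κ) := Real.log_pos (by linarith)
  set B' : ℝ → ℝ → Prop := fun T t => ∃ j ∈ Finset.range (J T + 1), Hj T j ≤ T / 8 ∧
    ¬ G T t (Hj T j) with hB'
  -- parameters: T large
  have hlarge : ∀ᶠ T : ℝ in atTop, ((J T : ℝ) + 1) * T ^ (1 - δ0) ≤ T ^ (1 - δ0 / 2) := by
    have h1 : (fun T : ℝ => Real.log T / Real.log (1 + κ) + 2) =o[atTop]
        fun T : ℝ => T ^ (δ0 / 2) := by
      have e1 : (fun T : ℝ => Real.log T / Real.log (1 + κ)) =o[atTop]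
          fun T : ℝ => T ^ (δ0 / 2) := by
        have := (isLittleO_log_rpow_atTop (r := δ0 / 2) (by linarith)).const_mul_left
          (Real.log (1 + κ))⁻¹
        refine this.congr_left fun T => ?_
        rw [div_eq_inv_mul]
      have e2 : (fun _ : ℝ => (2 : ℝ)) =o[atTop] fun T : ℝ => T ^ (δ0 / 2) := by
        rw [Asymptotics.isLittleO_const_left]
        right
        exact tendsto_norm_atTop_atTop.comp (tendsto_rpow_atTop (by linarith))
      exact e1.add e2
    filter_upwards [h1.bound one_pos, eventually_ge_atTop 1] with T hT hT1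
    have hT0 : 0 < T := by linarith
    have hl : 0 ≤ Real.log T := Real.log_nonneg hT1
    have h2 : 0 ≤ Real.log T / Real.log (1 + κ) := by positivity
    rw [Real.norm_eq_abs, Real.norm_eq_abs, abs_of_nonneg (by linarith), one_mul,
      abs_of_nonneg (Real.rpow_nonneg hT0.le _)] at hT
    have h3 : (J T : ℝ) + 1 ≤ Real.log T / Real.log (1 + κ) + 2 := by
      have := (Nat.ceil_lt_add_one h2).le
      rw [hJ]
      linarith
    have e : T ^ (1 - δ0 / 2) = T ^ (δ0 / 2) * T ^ (1 - δ0) := by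
      rw [← Real.rpow_add hT0]; congr 1; ring
    rw [e]
    exact mul_le_mul_of_nonneg_right (h3.trans hT) (Real.rpow_nonneg hT0.le _)
  have hlarge2 : ∀ᶠ T : ℝ in atTop, T ^ η' + 2 ≤ (T - 1) ^ η := by
    have h1 : (fun T : ℝ => T ^ η') =o[atTop] fun T : ℝ => T ^ η := by
      rw [Asymptotics.isLittleO_iff_tendsto']
      · have e1 : Tendsto (fun T : ℝ => T ^ (-(η - η'))) atTop (𝓝 0) :=
          tendsto_rpow_neg_atTop (by linarith)
        refine e1.congr' ?_
        filter_upwards [eventually_gt_atTop 0] with T hT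
        rw [← Real.rpow_sub hT]
        congr 1; ring
      · filter_upwards [eventually_gt_atTop 0] with T hT h
        exact absurd h (Real.rpow_pos_of_pos hT _).ne'
    have h2 : (fun _ : ℝ => (2 : ℝ)) =o[atTop] fun T : ℝ => T ^ η := by
      rw [Asymptotics.isLittleO_const_left]
      right
      exact tendsto_norm_atTop_atTop.comp (tendsto_rpow_atTop hη0)
    have hc : (0 : ℝ) < (1 / 2 : ℝ) ^ η := Real.rpow_pos_of_pos (by norm_num) _
    filter_upwards [(h1.add h2).bound hc, eventually_ge_atTop 2] with T hT hT2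
    have hT0 : 0 < T := by linarith
    have hp : 0 ≤ T ^ η' := Real.rpow_nonneg hT0.le _
    rw [Real.norm_eq_abs, Real.norm_eq_abs, abs_of_nonneg (by linarith),
      abs_of_nonneg (Real.rpow_nonneg hT0.le _), ← Real.mul_rpow (by norm_num) hT0.le] at hT
    exact hT.trans (Real.rpow_le_rpow (by linarith) (by linarith) hη0.le)
  obtain ⟨T1, hT1⟩ := eventually_atTop.1 (hlarge.and (hlarge2.and (eventually_ge_atTop (100 : ℝ))))
  refine few_of_measure (B' := B') (T0 := max (max T0 T1) 100) (by linarith)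
    (by linarith [le_max_right (max T0 T1) (100 : ℝ)]) ?_ ?_
  · intro T hT
    have hTT0 : T0 ≤ T := ((le_max_left _ _).trans (le_max_left _ _)).trans hT
    have hTT1 : T1 ≤ T := ((le_max_right _ _).trans (le_max_left _ _)).trans hT
    have hT100 : 100 ≤ T := (le_max_right _ _).trans hT
    have hTpos : 0 < T := by linarith
    obtain ⟨h1, -, -⟩ := hT1 T hTT1
    have hsub : {t : ℝ | T ≤ t ∧ t ≤ 2 * T ∧ B' T t} ⊆
        ⋃ j ∈ Finset.range (J T + 1), (if Hj T j ≤ T / 8 then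
          {t : ℝ | (T ≤ t ∧ t ≤ 2 * T) ∧ ¬ G T t (Hj T j)} else ∅) := by
      rintro t ⟨h2, h3, j, hj, h4, h5⟩
      simp only [mem_iUnion]
      refine ⟨j, hj, ?_⟩
      rw [if_pos h4]
      exact ⟨⟨h2, h3⟩, h5⟩
    refine (measure_mono hsub).trans ((measure_biUnion_finset_le _ _).trans ?_)
    have h6 : ∀ j ∈ Finset.range (J T + 1), volume (if Hj T j ≤ T / 8 then
          {t : ℝ | (T ≤ t ∧ t ≤ 2 * T) ∧ ¬ G T t (Hj T j)} else ∅) ≤
          ENNReal.ofReal (T ^ (1 - δ0)) := by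
      intro j _
      split_ifs with hj
      · refine hm T hTT0 _ ?_ hj
        have : (1 : ℝ) ≤ (1 + κ) ^ j := one_le_pow₀ (by linarith)
        exact le_mul_of_one_le_right (Real.rpow_nonneg hTpos.le _) this
      · simp
    refine (Finset.sum_le_sum h6).trans ?_
    rw [Finset.sum_const, Finset.card_range, nsmul_eq_mul]
    have h7 : ((J T + 1 : ℕ) : ℝ≥0∞) = ENNReal.ofReal ((J T : ℝ) + 1) := by
      rw [← ENNReal.ofReal_natCast]; push_cast; rfl
    rw [h7, ← ENNReal.ofReal_mul (by positivity)]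
    exact ENNReal.ofReal_le_ofReal h1
  · rintro T hT y hy1 hy2 ⟨H, hH1, hH2, hH3⟩ t ht1 ht2 ht3 ht4
    have hTT1 : T1 ≤ T := ((le_max_right _ _).trans (le_max_left _ _)).trans hT
    obtain ⟨-, h2, hT100⟩ := hT1 T hTT1
    have hTpos : 0 < T := by linarith
    have hypos : 0 < y := by linarith
    have hHy : T ^ η' + 2 ≤ H := by
      refine h2.trans ((Real.rpow_le_rpow (by linarith) hy1 (by linarith)).trans hH1)
    have hTη : 0 < T ^ η' := Real.rpow_pos_of_pos hTpos _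
    -- the grid point
    have hex : ∃ j : ℕ, H - 2 < Hj T (j + 1) := by
      obtain ⟨j, hj⟩ := pow_unbounded_of_one_lt (H / T ^ η') (by linarith : 1 < 1 + κ)
      refine ⟨j, ?_⟩
      rw [div_lt_iff₀ hTη] at hj
      have h3 : (1 + κ) ^ j ≤ (1 + κ) ^ (j + 1) := pow_le_pow_right₀ (by linarith) (by omega)
      have h4 : (1 + κ) ^ j * T ^ η' ≤ (1 + κ) ^ (j + 1) * T ^ η' :=
        mul_le_mul_of_nonneg_right h3 hTη.le
      simp only [hHj]
      rw [mul_comm]
      linarith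
    set j := Nat.find hex with hj
    have hj1 : H - 2 < Hj T (j + 1) := Nat.find_spec hex
    have hj2 : Hj T j ≤ H - 2 := by
      by_cases h0 : j = 0
      · rw [h0]; simp only [hHj, pow_zero, mul_one]; linarith
      · obtain ⟨i, hi⟩ := Nat.exists_eq_succ_of_ne_zero h0
        have h3 := Nat.find_min hex (m := i) (by rw [← hj]; omega)
        rw [not_lt] at h3
        rw [hi]; exact h3
    have hj3 : Hj T (j + 1) = (1 + κ) * Hj T j := by
      simp only [hHj, pow_succ]; ring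
    have hHT : H ≤ T / 8 := by linarith
    have hjle : Hj T j ≤ T / 8 := by linarith
    have hjJ : j ∈ Finset.range (J T + 1) := by
      rw [Finset.mem_range]
      have h3 : (1 + κ) ^ j ≤ T := by
        have h4 : (1 : ℝ) ≤ T ^ η' := Real.one_le_rpow (by linarith) (by linarith)
        have h5 : (1 + κ) ^ j ≤ T ^ η' * (1 + κ) ^ j :=
          le_mul_of_one_le_left (by positivity) h4
        have h6 : T ^ η' * (1 + κ) ^ j ≤ T / 8 := hjle
        linarith
      have h4 : (j : ℝ) * Real.log (1 + κ) ≤ Real.log T := by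
        rw [← Real.log_pow]
        exact Real.log_le_log (by positivity) h3
      have h5 : (j : ℝ) ≤ J T := by
        refine le_trans ?_ (Nat.le_ceil _)
        rwa [le_div_iff₀ hlκ]
      have : j ≤ J T := by exact_mod_cast h5
      omega
    refine ⟨j, hjJ, hjle, ?_⟩
    refine hH3 T t (Hj T j) ht3 ht4 hy1 hy2 ht1 ht2 ?_ (by linarith) ?_
    · have h3 : T ^ (η / 2) ≤ T ^ η' := Real.rpow_le_rpow_of_exponent_le (by linarith) hη'
      have h4 : (1 : ℝ) ≤ (1 + κ) ^ j := one_le_pow₀ (by linarith)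
      exact h3.trans (le_mul_of_one_le_right hTη.le h4)
    · rw [← hj3]; linarith

end Pool.Agent.Q260.MZ
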