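import Pool.Agent.Q260.MZ.Zero
import Pool.Agent.Y796.PA.Pat

set_option autoImplicit false

/-!
# Isolated simple critical zeros in windows along dilations and powers
-/

namespace Pool.Agent.Q260.MZ

open Filter Topology MeasureTheory Set
open scoped ENNReal NNReal
open H370 H295SI H295Iso Pool.Agent.TH822.AA Pool.Agent.TH822.DZ

theorem isoN_mono {F : ℂ → ℂ} (hF : GoodL F) {y t H H' ρ w ρ' w' : ℝ} (hy : 1 ≤ y) (h1 : y ≤ t)
    (h2 : t + H' ≤ y + H) (hρ : ρ ≤ ρ') (hw : w ≤ w') : isoN F t H' ρ' w' ≤ isoN F y H ρ w := by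
  unfold isoN isoSet
  refine Set.ncard_le_ncard ?_ ((zset_finite hF y (y + H) hy).subset fun s hs => hs.1)
  rintro s ⟨⟨a1, a2, a3, a4, a5⟩, a6, a7, a8⟩
  exact ⟨⟨a1, a2, by linarith, by linarith, a5⟩, a6, a7, fun s' b1 b2 b3 b4 b5 =>
    hw.trans_lt (a8 s' b1 b2 b3 b4 (b5.trans hρ))⟩

/-- the bad points: some window starting there contains too few isolated zeros -/
def BadI (F : ℂ → ℂ) (η h r A ε y : ℝ) : Prop :=
  ∃ H : ℝ, y ^ η ≤ H ∧ H ≤ y / 16 ∧
    ¬ ((A - ε) * (NN F y (y + H) : ℝ) ≤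
      isoN F y H (2 * Real.pi * r / Real.log (y + 1)) (4 * Real.pi / 5 / (h * Real.log (y + 1))))

theorem few_iso {F : ℂ → ℂ} (hF : GoodL F) {η h r A ε : ℝ} (hη : 0 < η)
    (hη1 : η < 1) (hh : 0 < h) (hhη : 2 * h < 1 + η) (hr0 : 0 ≤ r) (hε : 0 < ε)
    (hiso : ∀ η' : ℝ, 0 < η' → η' < 1 → 2 * h ≤ 1 + η' → ∃ δ : ℝ, 0 < δ ∧ ∃ T0 : ℝ, ∀ T : ℝ,
      T0 ≤ T → ∀ H : ℝ, T ^ η' ≤ H → H ≤ T / 8 →
      volume {t : ℝ | t ∈ Set.Icc T (2 * T) ∧ ¬ ((A - ε / 2) * (NN F t (t + H) : ℝ) ≤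
        isoN F t H (2 * Real.pi * r / Real.log T) (4 * Real.pi / 5 / (h * Real.log T)))} ≤
        ENNReal.ofReal (T ^ (1 - δ))) :
    ∃ δ : ℝ, 0 < δ ∧ δ < 1 ∧ Few (BadI F η h r A ε) δ := by
  set η' : ℝ := max (η / 2) (2 * h - 1) with hη'
  have hη'0 : 0 < η' := lt_of_lt_of_le (by linarith) (le_max_left _ _)
  have hη'η : η' < η := max_lt (by linarith) (by linarith)
  obtain ⟨δ, hδ, T0, hT0⟩ := hiso η' hη'0 (by linarith)
    (by linarith [le_max_right (η / 2) (2 * h - 1)])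
  set G : ℝ → ℝ → ℝ → Prop := fun T t H => (A - ε / 2) * (NN F t (t + H) : ℝ) ≤
        isoN F t H (2 * Real.pi * r / Real.log T) (4 * Real.pi / 5 / (h * Real.log T)) with hG
  set θ : ℝ := min 1 (ε / (8 * (1 + |A|))) with hθ
  have hθ0 : 0 < θ := lt_min one_pos (by positivity)
  have hθ1 : θ ≤ 1 := min_le_left _ _
  have hθε : θ * (1 + |A|) ≤ ε / 8 := by
    have h1 : θ ≤ ε / (8 * (1 + |A|)) := min_le_right _ _
    rw [le_div_iff₀ (by positivity)] at h1
    linarith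
  set δ0 : ℝ := min δ (1 / 2) with hδ0
  have hδ00 : 0 < δ0 := lt_min hδ (by norm_num)
  have hδ01 : δ0 < 1 := (min_le_right _ _).trans_lt (by norm_num)
  have hst : Few (StrongBad G η (θ / 4)) (δ0 / 2) := by
    refine few_strong (η' := η') (T0 := max T0 1) (le_max_left _ _) hη'η hη1 hη (by positivity)
      hδ00 hδ01 ?_
    intro T hT H hH1 hH2
    have hTT0 : T0 ≤ T := (le_max_left _ _).trans hT
    have hT1 : 1 ≤ T := (le_max_right _ _).trans hT
    refine (measure_mono ?_).trans ((hT0 T hTT0 H hH1 hH2).trans ?_)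
    · rintro t ⟨ht1, ht2⟩
      exact ⟨ht1, ht2⟩
    · apply ENNReal.ofReal_le_ofReal
      apply Real.rpow_le_rpow_of_exponent_le hT1
      linarith [min_le_left δ (1 / 2)]
  obtain ⟨Y0, hY016, hY0⟩ := window_compare hF hη hθ0 hθ1
  refine ⟨δ0 / 2, by linarith, by linarith, few_of_large (Y0 := Y0) (by linarith) hst ?_⟩
  rintro y hy ⟨H, hH1, hH2, hH3⟩
  refine ⟨H, hH1, hH2, fun T t H' h1 h2 h3 h4 h5 h6 h7 h8 h9 hgood => hH3 ?_⟩
  obtain ⟨hy1, hN, -⟩ := hY0 y hy H hH2 T t H' h2 h4 h5 h6 h7 h8 h9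
  have hT8 : 8 ≤ T := by linarith
  have hlT : 0 < Real.log T := Real.log_pos (by linarith)
  have hlTy : Real.log T ≤ Real.log (y + 1) := Real.log_le_log (by linarith) (by linarith)
  have hpi := Real.pi_pos
  have hmono : (isoN F t H' (2 * Real.pi * r / Real.log T)
      (4 * Real.pi / 5 / (h * Real.log T)) : ℝ) ≤
      isoN F y H (2 * Real.pi * r / Real.log (y + 1))
        (4 * Real.pi / 5 / (h * Real.log (y + 1))) := by
    have := isoN_mono hF hy1 h5 h8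
      (ρ := 2 * Real.pi * r / Real.log (y + 1)) (ρ' := 2 * Real.pi * r / Real.log T)
      (w := 4 * Real.pi / 5 / (h * Real.log (y + 1))) (w' := 4 * Real.pi / 5 / (h * Real.log T))
      (div_le_div_of_nonneg_left (by positivity) hlT hlTy)
      (div_le_div_of_nonneg_left (by positivity) (by positivity)
        (mul_le_mul_of_nonneg_left hlTy hh.le))
    exact_mod_cast this
  have hN0 : (0 : ℝ) ≤ NN F t (t + H') := Nat.cast_nonneg _
  have hNy : (0 : ℝ) ≤ NN F y (y + H) := Nat.cast_nonneg _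
  rcases le_or_gt (A - ε) 0 with h | h
  · exact (mul_nonpos_of_nonpos_of_nonneg h hNy).trans (Nat.cast_nonneg _)
  · calc (A - ε) * (NN F y (y + H) : ℝ) ≤
        (A - ε) * ((1 + θ) * NN F t (t + H')) := mul_le_mul_of_nonneg_left hN h.le
      _ = ((A - ε) * (1 + θ)) * NN F t (t + H') := by ring
      _ ≤ (A - ε / 2) * NN F t (t + H') := by
          apply mul_le_mul_of_nonneg_right _ hN0
          have h10 : A * θ ≤ θ * (1 + |A|) := by
            have := le_abs_self A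
            nlinarith
          nlinarith
      _ ≤ _ := le_trans hgood hmono

end Pool.Agent.Q260.MZ
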