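import Pool.Agent.Q138.Met.Exc

set_option autoImplicit false

/-!
# Metric theorems for sets of real numbers with few points

`hits B N`: the unit cells `[n, n + 1)`, `1 ≤ n ≤ N`, that meet `B`.
-/

namespace Pool.Agent.Q260.MZ

open Filter Topology MeasureTheory Set
open scoped ENNReal NNReal
open Pool.Agent.Q138.Met

/-- the set `B` meets at most `C N ^ (1 - κ)` unit cells below `N` -/
def Few (B : ℝ → Prop) (κ : ℝ) : Prop :=
  ∃ C : ℝ, 0 ≤ C ∧ ∀ N : ℕ, 1 ≤ N → ((hits B N).card : ℝ) ≤ C * (N : ℝ) ^ (1 - κ)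

open Classical in
/-- from measures of slightly larger sets to the number of cells -/
theorem few_of_measure {B : ℝ → Prop} {B' : ℝ → ℝ → Prop} {δ T0 : ℝ} (hδ1 : δ < 1)
    (hT0 : 1 ≤ T0)
    (hm : ∀ T : ℝ, T0 ≤ T → volume {t : ℝ | T ≤ t ∧ t ≤ 2 * T ∧ B' T t} ≤
      ENNReal.ofReal (T ^ (1 - δ)))
    (hst : ∀ T : ℝ, T0 ≤ T → ∀ y : ℝ, T - 1 ≤ y → y ≤ 2 * T → B y → ∀ t : ℝ, y ≤ t → t ≤ y + 2 →
      T ≤ t → t ≤ 2 * T → B' T t) : Few B δ := by
  -- the number of cells in a dyadic block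
  have hblock : ∀ N : ℕ, 2 * T0 ≤ N →
      ((((Finset.Icc 1 N).filter fun n : ℕ => N < 2 * n ∧
        ∃ y : ℝ, (n : ℝ) ≤ y ∧ y < n + 1 ∧ B y).card : ℕ) : ℝ) ≤ (N : ℝ) ^ (1 - δ) := by
    intro N hN
    set S := (Finset.Icc 1 N).filter fun n : ℕ => N < 2 * n ∧
        ∃ y : ℝ, (n : ℝ) ≤ y ∧ y < n + 1 ∧ B y with hS
    set T : ℝ := (N : ℝ) / 2 + 1 with hT
    have hN2 : (2 : ℝ) ≤ N := by linarith
    have hTT0 : T0 ≤ T := by rw [hT]; linarith
    have hsub : (⋃ n ∈ S, Ico ((n : ℝ) + 1) (n + 2)) ⊆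
        {t : ℝ | T ≤ t ∧ t ≤ 2 * T ∧ B' T t} := by
      intro t ht
      simp only [mem_iUnion] at ht
      obtain ⟨n, hn, ht1, ht2⟩ := ht
      rw [hS, Finset.mem_filter, Finset.mem_Icc] at hn
      obtain ⟨⟨hn1, hnN⟩, hn2, y, hy1, hy2, hy3⟩ := hn
      have h1 : (N : ℝ) < 2 * n := by exact_mod_cast hn2
      have h2 : (n : ℝ) ≤ N := by exact_mod_cast hnN
      have h3 : T ≤ t := by rw [hT]; linarith
      have h4 : t ≤ 2 * T := by rw [hT]; linarith
      exact ⟨h3, h4, hst T hTT0 y (by rw [hT]; linarith) (by rw [hT]; linarith) hy3 t (by linarith)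
        (by linarith) h3 h4⟩
    have hvol : volume (⋃ n ∈ S, Ico ((n : ℝ) + 1) (n + 2)) = (S.card : ℝ≥0∞) := by
      rw [measure_biUnion_finset]
      · rw [Finset.sum_congr rfl (g := fun _ => (1 : ℝ≥0∞))]
        · simp
        · intro n _
          rw [Real.volume_Ico]
          norm_num
      · intro a _ b _ hab
        rw [Function.onFun, Set.disjoint_left]
        rintro t ⟨h1, h2⟩ ⟨h3, h4⟩
        apply hab
        have e1 : (a : ℝ) < b + 1 := by linarith
        have e2 : (b : ℝ) < a + 1 := by linarith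
        have e3 : a < b + 1 := by exact_mod_cast e1
        have e4 : b < a + 1 := by exact_mod_cast e2
        omega
      · intro n _
        exact measurableSet_Ico
    have h5 : ((S.card : ℕ) : ℝ≥0∞) ≤ ENNReal.ofReal (T ^ (1 - δ)) := by
      rw [← hvol]
      exact (measure_mono hsub).trans (hm T hTT0)
    have h6 : ((S.card : ℕ) : ℝ) ≤ T ^ (1 - δ) := by
      have hT1 : 0 ≤ T ^ (1 - δ) := Real.rpow_nonneg (by linarith) _
      rw [← ENNReal.ofReal_natCast] at h5
      exact (ENNReal.ofReal_le_ofReal_iff hT1).1 h5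
    refine h6.trans (Real.rpow_le_rpow (by linarith) (by rw [hT]; linarith) (by linarith))
  -- induction
  set q : ℝ := (1 / 2 : ℝ) ^ (1 - δ) with hq
  have hq0 : 0 < q := Real.rpow_pos_of_pos (by norm_num) _
  have hq1 : q < 1 := Real.rpow_lt_one (by norm_num) (by norm_num) (by linarith)
  obtain ⟨N0, hN0⟩ := exists_nat_ge (2 * T0)
  set C : ℝ := (N0 : ℝ) + 1 / (1 - q) with hC
  have hC0 : 0 ≤ C := by
    rw [hC]
    have : 0 < 1 - q := by linarith
    positivity
  have hCq : C * q + 1 ≤ C := by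
    have h1 : 0 < 1 - q := by linarith
    have h2 : C * (1 - q) = N0 * (1 - q) + 1 := by
      rw [hC]; field_simp
    have h3 : 0 ≤ (N0 : ℝ) * (1 - q) := by positivity
    nlinarith
  refine ⟨C, hC0, ?_⟩
  intro N
  induction N using Nat.strong_induction_on with
  | _ N ih =>
    intro hN1
    have hNpos : (0 : ℝ) < N := by exact_mod_cast hN1
    by_cases hNN : N < N0 + 1
    · have h1 : (hits B N).card ≤ N := by
        unfold hits
        refine (Finset.card_filter_le _ _).trans ?_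
        simp
      have h2 : ((hits B N).card : ℝ) ≤ N0 := by
        have : (hits B N).card ≤ N0 := h1.trans (by omega)
        exact_mod_cast this
      have h3 : (1 : ℝ) ≤ (N : ℝ) ^ (1 - δ) :=
        Real.one_le_rpow (by exact_mod_cast hN1) (by linarith)
      have h4 : (N0 : ℝ) ≤ C := by
        rw [hC]
        have : 0 < 1 - q := by linarith
        have : 0 < 1 / (1 - q) := by positivity
        linarith
      calc ((hits B N).card : ℝ) ≤ C := h2.trans h4
        _ = C * 1 := (mul_one _).symm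
        _ ≤ C * (N : ℝ) ^ (1 - δ) := mul_le_mul_of_nonneg_left h3 hC0
    · have hNge : N0 + 1 ≤ N := by omega
      have hN00 : 2 ≤ N0 := by
        have : (2 : ℝ) ≤ N0 := by linarith
        exact_mod_cast this
      have hsub : hits B N ⊆ hits B (N / 2) ∪ (Finset.Icc 1 N).filter (fun n : ℕ => N < 2 * n ∧
          ∃ y : ℝ, (n : ℝ) ≤ y ∧ y < n + 1 ∧ B y) := by
        intro n hn
        rw [mem_hits] at hn
        rw [Finset.mem_union, mem_hits, Finset.mem_filter, Finset.mem_Icc]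
        by_cases h : N < 2 * n
        · exact Or.inr ⟨hn.1, h, hn.2⟩
        · exact Or.inl ⟨⟨hn.1.1, by omega⟩, hn.2⟩
      have h1 := (Finset.card_le_card hsub).trans (Finset.card_union_le _ _)
      have h2 : ((hits B N).card : ℝ) ≤ ((hits B (N / 2)).card : ℝ) +
          (((Finset.Icc 1 N).filter (fun n : ℕ => N < 2 * n ∧
          ∃ y : ℝ, (n : ℝ) ≤ y ∧ y < n + 1 ∧ B y)).card : ℝ) := by exact_mod_cast h1
      have h3 := ih (N / 2) (by omega) (by omega)
      have h4 := hblock N (by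
        have : (N0 : ℝ) + 1 ≤ N := by exact_mod_cast hNge
        linarith)
      have h5 : (((N / 2 : ℕ) : ℝ)) ^ (1 - δ) ≤ q * (N : ℝ) ^ (1 - δ) := by
        rw [hq, ← Real.mul_rpow (by norm_num) hNpos.le]
        apply Real.rpow_le_rpow (Nat.cast_nonneg _) _ (by linarith)
        have := @Nat.cast_div_le ℝ _ _ _ N 2
        push_cast at this
        linarith
      have hNp : 0 ≤ (N : ℝ) ^ (1 - δ) := Real.rpow_nonneg hNpos.le _
      calc ((hits B N).card : ℝ) ≤ C * (((N / 2 : ℕ) : ℝ)) ^ (1 - δ) + (N : ℝ) ^ (1 - δ) :=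
            h2.trans (add_le_add h3 h4)
        _ ≤ C * (q * (N : ℝ) ^ (1 - δ)) + (N : ℝ) ^ (1 - δ) :=
            add_le_add (mul_le_mul_of_nonneg_left h5 hC0) le_rfl
        _ = (C * q + 1) * (N : ℝ) ^ (1 - δ) := by ring
        _ ≤ C * (N : ℝ) ^ (1 - δ) := mul_le_mul_of_nonneg_right hCq hNp

/-- **Hausdorff measure of the parameters for which expanding functions hit the set
infinitely often** -/
theorem fam_null {B : ℝ → Prop} {C κ s : ℝ} (hC : 0 ≤ C) (hκ1 : κ ≤ 1)
    (hp : ∀ N : ℕ, 1 ≤ N → ((hits B N).card : ℝ) ≤ C * (N : ℝ) ^ (1 - κ)) (hs : 0 < s)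
    {a b : ℝ} (F : ℕ → ℝ → ℝ) (L U : ℕ → ℝ) (hL : ∀ᶠ k in atTop, 0 < L k)
    (hU : ∀ᶠ k in atTop, ∀ x ∈ Icc a b, 1 ≤ F k x ∧ F k x ≤ U k)
    (hexp : ∀ᶠ k in atTop, ∀ x ∈ Icc a b, ∀ y ∈ Icc a b, x ≤ y → L k * (y - x) ≤ F k y - F k x)
    (hsum : Summable fun k => (U k) ^ (1 - κ) * (L k) ^ (-s)) :
    μH[s] {x : ℝ | x ∈ Icc a b ∧ ∃ᶠ k in atTop, B (F k x)} = 0 := by
  classical
  obtain ⟨K₀, hK₀⟩ := eventually_atTop.1 (hL.and (hU.and hexp))
  set f : ℕ → ℝ≥0∞ := fun k => ENNReal.ofReal (C * ((U k) ^ (1 - κ) * (L k) ^ (-s))) with hf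
  have hfs : ∑' k, f k ≠ ∞ := (hsum.mul_left C).tsum_ofReal_ne_top
  set t : ℕ → ℕ × ℕ → Set ℝ := fun K i => if K₀ ≤ i.1 + K ∧ i.2 ∈ hits B ⌊U (i.1 + K)⌋₊ then
    {x : ℝ | x ∈ Icc a b ∧ (i.2 : ℝ) ≤ F (i.1 + K) x ∧ F (i.1 + K) x < i.2 + 1} else ∅ with ht
  refine hausdorff_null_of_covers hs t (fun K => ?_) ?_
  · rintro x ⟨hx, hfr⟩
    obtain ⟨k, hkK, hk⟩ := (hfr.and_eventually (eventually_ge_atTop (K + K₀))).exists.imp
      fun k h => And.intro h.2 h.1
    refine mem_iUnion.2 ⟨(k - K, ⌊F k x⌋₊), ?_⟩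
    have hkk : k - K + K = k := by omega
    simp only [ht, hkk]
    obtain ⟨h1, h2, h3⟩ := hK₀ k (by omega)
    obtain ⟨h4, h5⟩ := h2 x hx
    have hfl : (⌊F k x⌋₊ : ℝ) ≤ F k x := Nat.floor_le (by linarith)
    have hmem : ⌊F k x⌋₊ ∈ hits B ⌊U k⌋₊ := by
      rw [mem_hits]
      exact ⟨⟨(Nat.one_le_floor_iff _).2 h4, Nat.floor_mono h5⟩, F k x, hfl,
        Nat.lt_floor_add_one _, hk⟩
    rw [if_pos ⟨by omega, hmem⟩]
    exact ⟨hx, hfl, Nat.lt_floor_add_one _⟩
  · have hle : ∀ K, K₀ ≤ K → ∑' i, Metric.ediam (t K i) ^ s ≤ ∑' k, f (k + K) := by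
      intro K hK
      rw [ENNReal.tsum_prod']
      refine ENNReal.tsum_le_tsum fun k => ?_
      obtain ⟨hLk, hUk, hek⟩ := hK₀ (k + K) (by omega)
      by_cases hne : (Icc a b).Nonempty
      swap
      · have h0 : ∀ n : ℕ, Metric.ediam (t K (k, n)) ^ s = 0 := by
          intro n
          have e : t K (k, n) = ∅ := by
            simp only [ht]
            split_ifs
            · ext x
              constructor
              · rintro ⟨h1, -⟩; exact absurd ⟨x, h1⟩ hne
              · intro h; exact absurd h (Set.notMem_empty _)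
            · rfl
          rw [e, Metric.ediam_empty, ENNReal.zero_rpow_of_pos hs]
        simp only [h0, tsum_zero]
        exact zero_le
      obtain ⟨x0, hx0⟩ := hne
      have hU1 : 1 ≤ U (k + K) := (hUk x0 hx0).1.trans (hUk x0 hx0).2
      have h3 : ∀ n : ℕ, Metric.ediam (t K (k, n)) ^ s ≤
          if n ∈ hits B ⌊U (k + K)⌋₊ then ENNReal.ofReal ((L (k + K)) ^ (-s)) else 0 := by
        intro n
        simp only [ht]
        by_cases hn : n ∈ hits B ⌊U (k + K)⌋₊
        · rw [if_pos ⟨by omega, hn⟩, if_pos hn]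
          have hd : Metric.ediam {x : ℝ | x ∈ Icc a b ∧ (n : ℝ) ≤ F (k + K) x ∧
              F (k + K) x < n + 1} ≤ ENNReal.ofReal ((L (k + K))⁻¹) := by
            refine Metric.ediam_le fun x hx y hy => ?_
            rw [edist_dist]
            apply ENNReal.ofReal_le_ofReal
            rw [Real.dist_eq]
            have key : ∀ x y : ℝ, (x ∈ Icc a b ∧ (n : ℝ) ≤ F (k + K) x ∧ F (k + K) x < n + 1) →
                (y ∈ Icc a b ∧ (n : ℝ) ≤ F (k + K) y ∧ F (k + K) y < n + 1) → x ≤ y →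
                y - x ≤ (L (k + K))⁻¹ := by
              intro x y hx hy hxy
              have e1 := hek x hx.1 y hy.1 hxy
              have e2 : L (k + K) * (y - x) ≤ 1 := by linarith [hx.2.1, hy.2.2]
              rw [← one_div, le_div_iff₀ hLk]
              linarith
            rcases le_total x y with h | h
            · rw [abs_sub_comm, abs_of_nonneg (by linarith)]
              exact key x y hx hy h
            · rw [abs_of_nonneg (by linarith)]
              exact key y x hy hx h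
          refine (ENNReal.rpow_le_rpow hd hs.le).trans (le_of_eq ?_)
          rw [ENNReal.ofReal_rpow_of_pos (by positivity), Real.inv_rpow hLk.le,
            Real.rpow_neg hLk.le]
        · rw [if_neg (fun h => hn h.2), if_neg hn, Metric.ediam_empty,
            ENNReal.zero_rpow_of_pos hs]
      have h4 : ∑' n : ℕ, Metric.ediam (t K (k, n)) ^ s ≤
          ((hits B ⌊U (k + K)⌋₊).card : ℝ≥0∞) * ENNReal.ofReal ((L (k + K)) ^ (-s)) := by
        refine (ENNReal.tsum_le_tsum h3).trans (le_of_eq ?_)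
        rw [tsum_eq_sum (s := hits B ⌊U (k + K)⌋₊)]
        · rw [Finset.sum_congr rfl (g := fun _ => ENNReal.ofReal ((L (k + K)) ^ (-s)))]
          · rw [Finset.sum_const, nsmul_eq_mul]
          · intro n hn
            rw [if_pos hn]
        · intro n hn
          rw [if_neg hn]
      refine h4.trans ?_
      rw [hf]
      have h5 : ((hits B ⌊U (k + K)⌋₊).card : ℝ≥0∞) =
          ENNReal.ofReal ((hits B ⌊U (k + K)⌋₊).card : ℝ) := (ENNReal.ofReal_natCast _).symm
      rw [h5, ← ENNReal.ofReal_mul (Nat.cast_nonneg _)]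
      apply ENNReal.ofReal_le_ofReal
      have hfl : 1 ≤ ⌊U (k + K)⌋₊ := (Nat.one_le_floor_iff _).2 hU1
      have h6 := hp _ hfl
      have h7 : ((⌊U (k + K)⌋₊ : ℕ) : ℝ) ^ (1 - κ) ≤ (U (k + K)) ^ (1 - κ) :=
        Real.rpow_le_rpow (Nat.cast_nonneg _) (Nat.floor_le (by linarith)) (by linarith)
      have h8 : 0 ≤ (L (k + K)) ^ (-s) := Real.rpow_nonneg hLk.le _
      calc ((hits B ⌊U (k + K)⌋₊).card : ℝ) * (L (k + K)) ^ (-s) ≤
          (C * (U (k + K)) ^ (1 - κ)) * (L (k + K)) ^ (-s) :=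
            mul_le_mul_of_nonneg_right (h6.trans (mul_le_mul_of_nonneg_left h7 hC)) h8
        _ = _ := by ring
    have h0 : Tendsto (fun K => ∑' k, f (k + K)) atTop (𝓝 0) := ENNReal.tendsto_sum_nat_add f hfs
    refine tendsto_of_tendsto_of_tendsto_of_le_of_le' tendsto_const_nhds h0
      (Eventually.of_forall fun _ => zero_le) ?_
    filter_upwards [eventually_ge_atTop K₀] with K hK using hle K hK

end Pool.Agent.Q260.MZ
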