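import Pool.Agent.Q260.MZ.Grid
import Pool.Agent.TH822.AA.Main

set_option autoImplicit false

/-!
# Simple and distinct zeros in windows along dilations and powers
-/

namespace Pool.Agent.Q260.MZ

open Filter Topology MeasureTheory Set
open scoped ENNReal NNReal
open H370 H295SI Pool.Agent.TH822.AA

/-- the window `(t, t + H']` contains almost all the zeros of the window `(y, y + H]` -/
theorem window_compare {F : ℂ → ℂ} (hF : GoodL F) {η θ : ℝ} (hη : 0 < η) (hθ : 0 < θ)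
    (hθ1 : θ ≤ 1) : ∃ Y0 : ℝ, 16 ≤ Y0 ∧ ∀ y : ℝ, Y0 ≤ y → ∀ H : ℝ, H ≤ y / 16 →
      ∀ T t H' : ℝ, t ≤ 2 * T → y ≤ 2 * T → y ≤ t → t ≤ y + 2 → T ^ (η / 2) ≤ H' →
        t + H' ≤ y + H → H ≤ (1 + θ / 4) * H' + 3 →
        1 ≤ y ∧ (NN F y (y + H) : ℝ) ≤ (1 + θ) * NN F t (t + H') ∧
          H' * Real.log y / 14 ≤ NN F t (t + H') := by
  obtain ⟨C, hC, hcount⟩ := countShort F hF
  have hcnt : ∀ T : ℝ, 10 ≤ T → ∀ H : ℝ, 3 ≤ H → H ≤ T →
      |(NN F T (T + H) : ℝ) - H * Real.log T / (2 * Real.pi)| ≤ C * (H + (Real.log T) ^ 2) :=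
    fun T hT H h1 h2 => (hcount T hT H h1 h2 T (T + H) le_rfl (by linarith) (by linarith) le_rfl).1
  -- y large
  have hbig : ∀ᶠ y : ℝ in atTop, 20 * (13 * C + 2) / θ * Real.log y ≤ (y / 2) ^ (η / 2) := by
    have h1 : (fun y : ℝ => 20 * (13 * C + 2) / θ * Real.log y) =o[atTop]
        fun y : ℝ => y ^ (η / 2) :=
      (isLittleO_log_rpow_atTop (r := η / 2) (by linarith)).const_mul_left _
    have hc : (0 : ℝ) < (1 / 2 : ℝ) ^ (η / 2) := Real.rpow_pos_of_pos (by norm_num) _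
    filter_upwards [h1.bound hc, eventually_ge_atTop 1] with y hy hy1
    have hy0 : 0 < y := by linarith
    rw [Real.norm_eq_abs, Real.norm_eq_abs,
      abs_of_nonneg (Real.rpow_nonneg hy0.le _), ← Real.mul_rpow (by norm_num) hy0.le] at hy
    refine (le_abs_self _).trans (hy.trans (le_of_eq ?_))
    congr 1
    ring
  have hlog : ∀ᶠ y : ℝ in atTop, 20 * (1 + 2 * C) ≤ Real.log y :=
    Real.tendsto_log_atTop.eventually_ge_atTop _
  obtain ⟨Y1, hY1⟩ := eventually_atTop.1 (hbig.and hlog)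
  refine ⟨max Y1 1000, by linarith [le_max_right Y1 (1000 : ℝ)], ?_⟩
  intro y hy H hH T t H' h1 h2 h3 h4 h5 h6 h7
  obtain ⟨hb, hl⟩ := hY1 y ((le_max_left _ _).trans hy)
  have hy1000 : 1000 ≤ y := (le_max_right _ _).trans hy
  have hy0 : 0 < y := by linarith
  set L := Real.log y with hL
  have hL20 : 20 ≤ L := by nlinarith
  have hT0 : 0 < T := by linarith
  have hh : 20 * (13 * C + 2) / θ * L ≤ H' := by
    refine hb.trans (le_trans ?_ h5)
    exact Real.rpow_le_rpow (by positivity) (by linarith) (by linarith)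
  have hh1 : 20 * (13 * C + 2) * L ≤ θ * H' := by
    have := mul_le_mul_of_nonneg_left hh hθ.le
    have e : θ * (20 * (13 * C + 2) / θ * L) = 20 * (13 * C + 2) * L := by field_simp
    linarith
  have hH'40 : 40 * L ≤ H' := by
    have h8 : 20 * (13 * C + 2) * L ≤ H' := by
      have h9 : 0 ≤ H' := by
        have h10 : 0 < T ^ (η / 2) := Real.rpow_pos_of_pos hT0 _
        linarith
      nlinarith
    nlinarith [mul_nonneg hC.le (by linarith : (0:ℝ) ≤ L)]
  have hH'3 : 3 ≤ H' := by linarith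
  have hH'0 : 0 < H' := by linarith
  have hH'H : H' ≤ H := by linarith
  have ht1000 : 1000 ≤ t := by linarith
  -- logarithms
  have hlt1 : L ≤ Real.log t := Real.log_le_log hy0 h3
  have hl2 : Real.log (2 * y) ≤ L + 1 := by
    rw [Real.log_mul (by norm_num) hy0.ne']
    have := Real.log_two_lt_d9
    linarith
  have hlt2 : Real.log t ≤ L + 1 := (Real.log_le_log (by linarith) (by linarith)).trans hl2
  have hlt3 : Real.log (t + H') ≤ L + 1 :=
    (Real.log_le_log (by linarith) (by linarith)).trans hl2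
  have hlt4 : 0 ≤ Real.log (t + H') := Real.log_nonneg (by linarith)
  have hpi := Real.pi_gt_three
  have hpi2 := Real.pi_lt_d2
  -- the three pieces
  have ha : (NN F y t : ℝ) ≤ L ^ 2 * (2 * C + 1) := by
    have e1 : NN F y t ≤ NN F y (y + 3) := NN_mono hF (by linarith) le_rfl (by linarith)
    have e2 := (abs_le.1 (hcnt y (by linarith) 3 le_rfl (by linarith))).2
    have e3 : (NN F y t : ℝ) ≤ NN F y (y + 3) := by exact_mod_cast e1
    have e4 : 3 * L / (2 * Real.pi) ≤ L := by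
      rw [div_le_iff₀ (by positivity)]
      nlinarith
    have e5 : C * (3 + L ^ 2) ≤ C * (2 * L ^ 2) :=
      mul_le_mul_of_nonneg_left (by nlinarith) hC.le
    nlinarith
  have hbb : (NN F (t + H') (y + H) : ℝ) ≤ (θ / 4 * H' + 3) * (L + 1) / 6 +
      C * (θ / 4 * H' + 3 + (L + 1) ^ 2) := by
    have e0 : 0 ≤ θ / 4 * H' := by positivity
    have e00 : θ / 4 * H' + 3 ≤ t + H' := by nlinarith
    have e1 : NN F (t + H') (y + H) ≤ NN F (t + H') (t + H' + (θ / 4 * H' + 3)) :=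
      NN_mono hF (by linarith) le_rfl (by nlinarith)
    have e2 := (abs_le.1 (hcnt (t + H') (by linarith) (θ / 4 * H' + 3) (by linarith) e00)).2
    have e3 : (NN F (t + H') (y + H) : ℝ) ≤ NN F (t + H') (t + H' + (θ / 4 * H' + 3)) := by
      exact_mod_cast e1
    have e4 : (θ / 4 * H' + 3) * Real.log (t + H') / (2 * Real.pi) ≤
        (θ / 4 * H' + 3) * (L + 1) / 6 := by
      have e9 : 0 ≤ (θ / 4 * H' + 3) * (L + 1) := mul_nonneg (by positivity) (by linarith)
      apply div_le_div₀ e9 _ (by norm_num) (by linarith)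
      exact mul_le_mul_of_nonneg_left hlt3 (by positivity)
    have e5 : C * (θ / 4 * H' + 3 + (Real.log (t + H')) ^ 2) ≤
        C * (θ / 4 * H' + 3 + (L + 1) ^ 2) := by
      apply mul_le_mul_of_nonneg_left _ hC.le
      have := pow_le_pow_left₀ hlt4 hlt3 2
      linarith
    linarith
  have hc : H' * L / 7 - C * (H' + (L + 1) ^ 2) ≤ NN F t (t + H') := by
    have e2 := (abs_le.1 (hcnt t (by linarith) H' hH'3 (by linarith))).1
    have e4 : H' * L / 7 ≤ H' * Real.log t / (2 * Real.pi) := by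
      apply div_le_div₀ (mul_nonneg hH'0.le (by linarith)) _ (by positivity) (by linarith)
      exact mul_le_mul_of_nonneg_left hlt1 hH'0.le
    have e5 : C * (H' + (Real.log t) ^ 2) ≤ C * (H' + (L + 1) ^ 2) := by
      apply mul_le_mul_of_nonneg_left _ hC.le
      have := pow_le_pow_left₀ (by linarith) hlt2 2
      linarith
    linarith
  have hadd1 : NN F y (y + H) = NN F y t + NN F t (y + H) :=
    NN_add hF (by linarith) h3 (by linarith)
  have hadd2 : NN F t (y + H) = NN F t (t + H') + NN F (t + H') (y + H) :=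
    NN_add hF (by linarith) (by linarith) h6
  have hadd : (NN F y (y + H) : ℝ) = NN F y t + NN F t (t + H') + NN F (t + H') (y + H) := by
    rw [hadd1, hadd2]; push_cast; ring
  have hLC : 20 * (1 + 2 * C) * H' ≤ L * H' := mul_le_mul_of_nonneg_right hl hH'0.le
  have hLh : 20 * (13 * C + 2) * L * L ≤ θ * H' * L :=
    mul_le_mul_of_nonneg_right hh1 (by linarith)
  have hL1 : (L + 1) ^ 2 ≤ 4 * L ^ 2 := by nlinarith
  have hCL : C * (L + 1) ^ 2 ≤ C * (4 * L ^ 2) := mul_le_mul_of_nonneg_left hL1 hC.le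
  have hCθ : θ * (C * (L + 1) ^ 2) ≤ C * (4 * L ^ 2) :=
    (mul_le_of_le_one_left (by positivity) hθ1).trans hCL
  have hθL : θ * (20 * (1 + 2 * C) * H') ≤ θ * (L * H') := mul_le_mul_of_nonneg_left hLC hθ.le
  refine ⟨by linarith, ?_, ?_⟩
  · rw [hadd]
    have key : L ^ 2 * (2 * C + 1) + ((θ / 4 * H' + 3) * (L + 1) / 6 +
        C * (θ / 4 * H' + 3 + (L + 1) ^ 2)) ≤ θ * (H' * L / 7 - C * (H' + (L + 1) ^ 2)) := by
      have f2 : 0 ≤ θ * H' := by positivity
      have f3 : 0 ≤ C * (θ * H') := by positivity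
      have f4 : 0 ≤ C * L ^ 2 := by positivity
      have f5 : C ≤ C * L ^ 2 := le_mul_of_one_le_right hC.le (one_le_pow₀ (by linarith))
      have f6 : L + 1 ≤ L ^ 2 := by nlinarith
      linarith
    have key2 : θ * (H' * L / 7 - C * (H' + (L + 1) ^ 2)) ≤ θ * NN F t (t + H') :=
      mul_le_mul_of_nonneg_left hc hθ.le
    linarith
  · refine le_trans ?_ hc
    have f1 : 0 ≤ H' * L := by positivity
    have f7 : C * (H' + (L + 1) ^ 2) ≤ H' * L / 14 := by
      have g2 : 20 * (13 * C + 2) * L * L ≤ H' * L := by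
        refine hLh.trans (le_trans (le_of_eq (mul_assoc _ _ _)) ?_)
        exact mul_le_of_le_one_left f1 hθ1
      have g3 : 0 ≤ L ^ 2 := by positivity
      linarith
    linarith

/-- the bad points: some window starting there contains too few simple critical zeros or too few
distinct zeros -/
def BadS (F : ℂ → ℂ) (η lam ε y : ℝ) : Prop :=
  ∃ H : ℝ, y ^ η ≤ H ∧ H ≤ y / 16 ∧
    ¬ ((2 - cc lam - ε) * (NN F y (y + H) : ℝ) ≤ Ns F y (y + H) ∧
      (3 - cc lam - ε) * (NN F y (y + H) : ℝ) ≤ 2 * (Nd F y (y + H) : ℝ))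

theorem few_simple {F : ℂ → ℂ} (hF : GoodL F) (hA : Almost F) {η lam ε : ℝ} (hη : 0 < η)
    (hη1 : η < 1) (hlam : 0 < lam) (hlη : 2 * lam ≤ 1 + η) (hε : 0 < ε) :
    ∃ δ : ℝ, 0 < δ ∧ δ < 1 ∧ Few (BadS F η lam ε) δ := by
  have hlam1 : lam ≤ 1 := by linarith
  have hc := AS.cc_cont lam hlam hlam1
  have h1 : ∀ᶠ x : ℝ in 𝓝[<] lam, (0 < x ∧ x < lam) ∧ cc x < cc lam + ε / 4 := by
    have e1 : ∀ᶠ x : ℝ in 𝓝[<] lam, 0 < x := nhdsWithin_le_nhds (lt_mem_nhds hlam)
    have e2 : ∀ᶠ x : ℝ in 𝓝[<] lam, x < lam := self_mem_nhdsWithin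
    have e3 : ∀ᶠ x : ℝ in 𝓝[<] lam, cc x < cc lam + ε / 4 :=
      nhdsWithin_le_nhds (hc.eventually (gt_mem_nhds (by linarith)))
    exact (e1.and e2).and e3
  obtain ⟨x, ⟨hx0, hx1⟩, hx2⟩ := h1.exists
  set η' : ℝ := max (η / 2) (2 * x - 1) with hη'
  have hη'0 : 0 < η' := lt_of_lt_of_le (by linarith) (le_max_left _ _)
  have hη'η : η' < η := max_lt (by linarith) (by linarith)
  obtain ⟨δ, hδ, T0, hT0, h⟩ := hA η' x (ε / 4) hη'0 (by linarith) hx0
    (by linarith [le_max_right (η / 2) (2 * x - 1)]) (by linarith)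
  set G : ℝ → ℝ → ℝ → Prop := fun _ t H =>
    (2 - cc x - ε / 4) * (NN F t (t + H) : ℝ) ≤ Ns F t (t + H) ∧
      (3 - cc x - ε / 4) * (NN F t (t + H) : ℝ) ≤ 2 * (Nd F t (t + H) : ℝ) with hG
  set θ : ℝ := min 1 (ε / 8) with hθ
  have hθ0 : 0 < θ := lt_min one_pos (by linarith)
  have hθ1 : θ ≤ 1 := min_le_left _ _
  have hθε : θ ≤ ε / 8 := min_le_right _ _
  set δ0 : ℝ := min δ (1 / 2) with hδ0
  have hδ00 : 0 < δ0 := lt_min hδ (by norm_num)
  have hδ01 : δ0 < 1 := (min_le_right _ _).trans_lt (by norm_num)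
  have hst : Few (StrongBad G η (θ / 4)) (δ0 / 2) := by
    refine few_strong (η' := η') (T0 := max T0 1) (le_max_left _ _) hη'η hη1 hη (by positivity)
      hδ00 hδ01 ?_
    intro T hT H hH1 hH2
    have hTT0 : T0 ≤ T := (le_max_left _ _).trans hT
    have hT1 : 1 ≤ T := (le_max_right _ _).trans hT
    refine (measure_mono ?_).trans ((h T hTT0 H hH1 hH2).trans ?_)
    · rintro t ⟨ht1, ht2⟩
      refine ⟨ht1, fun hcon => ht2 ?_⟩
      obtain ⟨h3, h4⟩ := hcon
      have e1 : (0 : ℝ) ≤ (W69DZ.EX F t (t + H) : ℝ) := Nat.cast_nonneg _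
      have e2 : (0 : ℝ) ≤ (W69DZ.NF F t (t + H) : ℝ) := Nat.cast_nonneg _
      exact ⟨by linarith, by linarith⟩
    · apply ENNReal.ofReal_le_ofReal
      apply Real.rpow_le_rpow_of_exponent_le hT1
      linarith [min_le_left δ (1 / 2)]
  obtain ⟨Y0, hY016, hY0⟩ := window_compare hF hη hθ0 hθ1
  refine ⟨δ0 / 2, by linarith, by linarith, few_of_large (Y0 := Y0) (by linarith) hst ?_⟩
  rintro y hy ⟨H, hH1, hH2, hH3⟩
  refine ⟨H, hH1, hH2, fun T t H' h1 h2 h3 h4 h5 h6 h7 h8 h9 hgood => hH3 ?_⟩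
  obtain ⟨hy1, hN, -⟩ := hY0 y hy H hH2 T t H' h2 h4 h5 h6 h7 h8 h9
  obtain ⟨hg1, hg2⟩ := hgood
  have hns : (Ns F t (t + H') : ℝ) ≤ Ns F y (y + H) := by
    exact_mod_cast Ns_mono hF hy1 h5 h8
  have hnd : (Nd F t (t + H') : ℝ) ≤ Nd F y (y + H) := by
    exact_mod_cast Nd_mono hF hy1 h5 h8
  have hcx : 0 ≤ cc x := AS.cc_nonneg x hx0 (by linarith)
  have hcl : 0 ≤ cc lam := AS.cc_nonneg lam hlam hlam1
  have hN0 : (0 : ℝ) ≤ NN F t (t + H') := Nat.cast_nonneg _
  have hNy : (0 : ℝ) ≤ NN F y (y + H) := Nat.cast_nonneg _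
  constructor
  · rcases le_or_gt (2 - cc lam - ε) 0 with h | h
    · exact (mul_nonpos_of_nonpos_of_nonneg h hNy).trans (Nat.cast_nonneg _)
    · calc (2 - cc lam - ε) * (NN F y (y + H) : ℝ) ≤
          (2 - cc lam - ε) * ((1 + θ) * NN F t (t + H')) := mul_le_mul_of_nonneg_left hN h.le
        _ = ((2 - cc lam - ε) * (1 + θ)) * NN F t (t + H') := by ring
        _ ≤ (2 - cc x - ε / 4) * NN F t (t + H') := by
            apply mul_le_mul_of_nonneg_right _ hN0
            nlinarith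
        _ ≤ Ns F y (y + H) := hg1.trans hns
  · rcases le_or_gt (3 - cc lam - ε) 0 with h | h
    · exact (mul_nonpos_of_nonpos_of_nonneg h hNy).trans (by positivity)
    · calc (3 - cc lam - ε) * (NN F y (y + H) : ℝ) ≤
          (3 - cc lam - ε) * ((1 + θ) * NN F t (t + H')) := mul_le_mul_of_nonneg_left hN h.le
        _ = ((3 - cc lam - ε) * (1 + θ)) * NN F t (t + H') := by ring
        _ ≤ (3 - cc x - ε / 4) * NN F t (t + H') := by
            apply mul_le_mul_of_nonneg_right _ hN0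
            nlinarith
        _ ≤ 2 * (Nd F y (y + H) : ℝ) := by linarith

end Pool.Agent.Q260.MZ
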